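import Pool.Agent.X142.HK.Basic
import Pool.Agent.X142.HZ.Val

/-!
# The differences are nonzero algebraic multiples of `π ^ k`; the denominators `3`, `4`, `6`
-/

set_option autoImplicit false

namespace Pool.Agent.X142.HK

open Finset Real

open Pool.Agent.X142.HZ (rat_alg)

lemma Bp_val (m : ℕ) (x : ℚ) : ∃ r : ℚ, Bp m x = (r : ℝ) := by
  refine ⟨(Polynomial.bernoulli (2 * m + 1)).eval x, ?_⟩
  unfold Bp
  have h1 := Polynomial.eval_map_algebraMap (B := ℝ) (Polynomial.bernoulli (2 * m + 1)) ((x : ℚ) : ℝ)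
  rw [h1]
  exact Polynomial.aeval_algebraMap_apply ℝ x (Polynomial.bernoulli (2 * m + 1))

lemma Bp_rat (m : ℕ) (x : ℚ) : IsAlgebraic ℤ (Bp m x) := by
  obtain ⟨r, hr⟩ := Bp_val m x
  rw [hr]
  exact rat_alg r

lemma cf_alg (m a q : ℕ) : IsAlgebraic ℤ (cf m a q) := by
  unfold cf
  apply IsAlgebraic.mul
  · have := rat_alg (2 * (q : ℚ) ^ (2 * m) * cst m)
    push_cast at this
    exact this
  · have hs : ∀ s : Finset ℕ, IsAlgebraic ℤ (∑ b ∈ s, sin (2 * π * b * a / q) * Bp m (b / q)) := by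
      intro s
      induction s using Finset.induction_on with
      | empty => rw [sum_empty]; exact isAlgebraic_zero
      | insert b s hb ih =>
        rw [sum_insert hb]
        apply IsAlgebraic.add _ ih
        apply IsAlgebraic.mul
        · have h1 := Real.isAlgebraic_sin_rat_mul_pi (2 * b * a / q)
          have e : (((2 * b * a / q : ℚ) : ℝ)) * π = 2 * π * b * a / q := by
            push_cast
            ring
          rwa [e] at h1
        · have h1 := Bp_rat m (b / q)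
          push_cast at h1
          exact h1
    exact hs _

lemma hz_lt (m : ℕ) (hm : m ≠ 0) (x y : ℝ) (hx : 0 < x) (hxy : x < y) : hz m y < hz m x := by
  unfold hz
  have h : ∀ n : ℕ, 1 / ((n : ℝ) + y) ^ (2 * m + 1) < 1 / ((n : ℝ) + x) ^ (2 * m + 1) := by
    intro n
    have h0 : (0 : ℝ) ≤ n := Nat.cast_nonneg n
    apply one_div_lt_one_div_of_lt (by positivity)
    exact pow_lt_pow_left₀ (by linarith) (by positivity) (by omega)
  exact (summable_hz m hm y (hx.trans hxy)).tsum_lt_tsum (fun n => (h n).le) (h 0)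
    (summable_hz m hm x hx)

lemma hz_ne (m : ℕ) (hm : m ≠ 0) (x : ℝ) (hx0 : 0 < x) (hx1 : x < 1) (hx : x ≠ 1 / 2) :
    hz m x - hz m (1 - x) ≠ 0 := by
  rcases lt_or_gt_of_ne hx with h | h
  · have := hz_lt m hm x (1 - x) hx0 (by linarith)
    linarith
  · have := hz_lt m hm (1 - x) x (by linarith) (by linarith)
    linarith

/-- the difference is a nonzero algebraic multiple of `π ^ k` -/
theorem hz_sub_alg (m : ℕ) (hm : m ≠ 0) (x : ℚ) (hx0 : 0 < x) (hx1 : x < 1) (hx : x ≠ 1 / 2) :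
    ∃ α : ℝ, IsAlgebraic ℤ α ∧ α ≠ 0 ∧ hz m x - hz m (1 - x) = α * π ^ (2 * m + 1) := by
  obtain ⟨a, ha⟩ : ∃ a : ℕ, (a : ℤ) = x.num := by
    have := Rat.num_pos.2 hx0
    exact ⟨x.num.toNat, Int.toNat_of_nonneg this.le⟩
  have hxe : x = a / x.den := by
    conv_lhs => rw [← Rat.num_div_den x, ← ha]
    push_cast
    rfl
  have ha0 : 0 < a := by
    have := Rat.num_pos.2 hx0
    omega
  have haq : a < x.den := by
    rw [hxe, div_lt_one (by exact_mod_cast x.den_pos)] at hx1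
    exact_mod_cast hx1
  have h := hz_sub m hm x.den a ha0 haq
  have hxR : (x : ℝ) = a / x.den := by
    conv_lhs => rw [hxe]
    push_cast
    rfl
  rw [← hxR] at h
  refine ⟨cf m a x.den, cf_alg _ _ _, ?_, h⟩
  intro h0
  rw [h0, zero_mul] at h
  refine hz_ne m hm x (by exact_mod_cast hx0) (by exact_mod_cast hx1) ?_ h
  intro h1
  apply hx
  have : ((x : ℚ) : ℝ) = ((1 / 2 : ℚ) : ℝ) := by rw [h1]; push_cast; rfl
  exact_mod_cast this

/-- the distribution relation -/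
lemma distribution (m : ℕ) (hm : m ≠ 0) (n : ℕ) (x : ℝ) (hx : 0 < x) :
    ∑ j ∈ range (n + 1), hz m (((j : ℝ) + x) / (n + 1)) = ((n : ℝ) + 1) ^ (2 * m + 1) * hz m x := by
  have h1 := Nat.sumByResidueClasses (summable_hz m hm x hx) (n + 1)
  have h2 : ∀ j : ℕ, ∑' i : ℕ, 1 / (((j + (n + 1) * i : ℕ) : ℝ) + x) ^ (2 * m + 1) =
      1 / ((n : ℝ) + 1) ^ (2 * m + 1) * hz m (((j : ℝ) + x) / (n + 1)) := by
    intro j
    unfold hz
    rw [← tsum_mul_left]
    apply tsum_congr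
    intro i
    have h3 : (((j + (n + 1) * i : ℕ) : ℝ) + x) = ((n : ℝ) + 1) * ((i : ℝ) + ((j : ℝ) + x) / (n + 1)) := by
      push_cast
      field_simp
      ring
    rw [h3, mul_pow]
    have h4 : (0 : ℝ) < (i : ℝ) + ((j : ℝ) + x) / (n + 1) := by positivity
    field_simp
  have h5 : hz m x = ∑ j : Fin (n + 1), ∑' i : ℕ, 1 / (((j : ℕ) + (n + 1) * i : ℕ) + x) ^ (2 * m + 1) := h1
  rw [h5]
  have h6 : ∑ j : Fin (n + 1), ∑' i : ℕ, 1 / (((j : ℕ) + (n + 1) * i : ℕ) + x) ^ (2 * m + 1) =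
      ∑ j ∈ range (n + 1), 1 / ((n : ℝ) + 1) ^ (2 * m + 1) * hz m (((j : ℝ) + x) / (n + 1)) := by
    rw [← Fin.sum_univ_eq_sum_range (fun j => 1 / ((n : ℝ) + 1) ^ (2 * m + 1) *
      hz m (((j : ℝ) + x) / (n + 1))) (n + 1)]
    apply sum_congr rfl
    intro j _
    exact h2 j
  rw [h6, ← mul_sum, ← mul_assoc, mul_one_div_cancel (by positivity), one_mul]

lemma hz_half (m : ℕ) (hm : m ≠ 0) : hz m (1 / 2) = (2 ^ (2 * m + 1) - 1) * hz m 1 := by
  have h := distribution m hm 1 1 one_pos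
  norm_num [sum_range_succ] at h
  norm_num
  linarith

lemma sum_third (m : ℕ) (hm : m ≠ 0) : hz m (1 / 3) + hz m (2 / 3) = (3 ^ (2 * m + 1) - 1) * hz m 1 := by
  have h := distribution m hm 2 1 one_pos
  norm_num [sum_range_succ] at h
  norm_num
  linarith

lemma sum_quarter (m : ℕ) (hm : m ≠ 0) :
    hz m (1 / 4) + hz m (3 / 4) = (4 ^ (2 * m + 1) - 2 ^ (2 * m + 1)) * hz m 1 := by
  have h := distribution m hm 3 1 one_pos
  have h2 := hz_half m hm
  norm_num [sum_range_succ] at h h2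
  norm_num
  linarith

lemma sum_sixth (m : ℕ) (hm : m ≠ 0) : hz m (1 / 6) + hz m (5 / 6) =
    (2 ^ (2 * m + 1) - 1) * (3 ^ (2 * m + 1) - 1) * hz m 1 := by
  have h := distribution m hm 5 1 one_pos
  have h2 := hz_half m hm
  have h3 := sum_third m hm
  have e : (6 : ℝ) ^ (2 * m + 1) = 2 ^ (2 * m + 1) * 3 ^ (2 * m + 1) := by
    rw [← mul_pow]; norm_num
  norm_num [sum_range_succ] at h h2 h3
  rw [e] at h
  norm_num
  linear_combination h - h2 - h3

lemma double_third (m : ℕ) (hm : m ≠ 0) :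
    hz m (1 / 6) - hz m (5 / 6) = (2 ^ (2 * m + 1) + 1) * (hz m (1 / 3) - hz m (2 / 3)) := by
  have h1 := distribution m hm 1 (1 / 3) (by norm_num)
  have h2 := distribution m hm 1 (2 / 3) (by norm_num)
  norm_num [sum_range_succ] at h1 h2
  norm_num
  linarith

/-- the difference at `1/4` is a rational multiple of `π ^ k` -/
lemma diff_quarter (m : ℕ) (hm : m ≠ 0) :
    ∃ σ : ℚ, hz m (1 / 4) - hz m (3 / 4) = σ * π ^ (2 * m + 1) := by
  have h := hz_sub m hm 4 1 one_pos (by norm_num)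
  obtain ⟨r1, hr1⟩ := Bp_val m (1 / 4)
  obtain ⟨r3, hr3⟩ := Bp_val m (3 / 4)
  push_cast at hr1 hr3
  have e : cf m 1 4 = ((2 * 4 ^ (2 * m) * cst m * (r1 - r3) : ℚ) : ℝ) := by
    unfold cf
    have s1 : sin (2 * π * 1 * 1 / 4) = 1 := by
      rw [show 2 * π * 1 * 1 / 4 = π / 2 by ring, sin_pi_div_two]
    have s2 : sin (2 * π * 2 * 1 / 4) = 0 := by
      rw [show 2 * π * 2 * 1 / 4 = π by ring, sin_pi]
    have s3 : sin (2 * π * 3 * 1 / 4) = -1 := by
      rw [show 2 * π * 3 * 1 / 4 = π / 2 + π by ring, sin_add_pi, sin_pi_div_two]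
    simp only [sum_range_succ, range_zero, sum_empty]
    push_cast
    rw [s1, s2, s3, hr1, hr3]
    simp only [mul_zero, zero_mul, zero_div, sin_zero]
    ring
  refine ⟨2 * 4 ^ (2 * m) * cst m * (r1 - r3), ?_⟩
  rw [← e]
  norm_num at h ⊢
  exact h

/-- the difference at `1/3` is a rational multiple of `√3 π ^ k` -/
lemma diff_third (m : ℕ) (hm : m ≠ 0) :
    ∃ ρ : ℚ, hz m (1 / 3) - hz m (2 / 3) = ρ * √3 * π ^ (2 * m + 1) := by
  have h := hz_sub m hm 3 1 one_pos (by norm_num)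
  obtain ⟨r1, hr1⟩ := Bp_val m (1 / 3)
  obtain ⟨r2, hr2⟩ := Bp_val m (2 / 3)
  push_cast at hr1 hr2
  have e : cf m 1 3 = ((3 ^ (2 * m) * cst m * (r1 - r2) : ℚ) : ℝ) * √3 := by
    unfold cf
    have s1 : sin (2 * π * 1 * 1 / 3) = √3 / 2 := by
      rw [show 2 * π * 1 * 1 / 3 = π - π / 3 by ring, sin_pi_sub, sin_pi_div_three]
    have s2 : sin (2 * π * 2 * 1 / 3) = -(√3 / 2) := by
      rw [show 2 * π * 2 * 1 / 3 = π / 3 + π by ring, sin_add_pi, sin_pi_div_three]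
    simp only [sum_range_succ, range_zero, sum_empty]
    push_cast
    rw [s1, s2, hr1, hr2]
    simp only [mul_zero, zero_mul, zero_div, sin_zero]
    ring
  refine ⟨3 ^ (2 * m) * cst m * (r1 - r2), ?_⟩
  rw [← e]
  norm_num at h ⊢
  exact h

end Pool.Agent.X142.HK
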