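import Mathlib
import Pool.Agent.TH456.TM.Fam
import Pool.Agent.TH456.TM.AlgDep
import Pool.Agent.X142.HK.Val

/-!
# Hurwitz zeta values at an odd integer: algebraic near relations
-/

set_option autoImplicit false

namespace Pool.Agent.X142.HK

open Polynomial Filter Topology Pool.Agent.TH456.TM

lemma abs_aeval' (x : ℝ) (P : ℤ[X]) : |aeval x P| = ‖aeval (x : ℂ) P‖ := by
  have := Polynomial.aeval_algebraMap_apply ℂ x P
  rw [Complex.coe_algebraMap] at this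
  rw [this, Complex.norm_real, Real.norm_eq_abs]

lemma alg_ofReal {r : ℝ} (h : IsAlgebraic ℤ r) : IsAlgebraic ℤ (r : ℂ) :=
  h.algebraMap

lemma measT_diff (k : ℕ) (hk : k ≠ 0) (r r' : ℝ) (h : IsAlgebraic ℤ r) (h' : IsAlgebraic ℤ r') (hne : r ≠ r') :
    MeasT (((r' * Real.pi ^ k : ℝ) : ℂ) - ((r * Real.pi ^ k : ℝ) : ℂ)) := by
  have h1 := measT_mul_alg (measT_pow measT_pi k hk) ((r' - r : ℝ) : ℂ)
    (alg_ofReal (h'.sub h)) (by
      rw [Ne, Complex.ofReal_eq_zero, sub_eq_zero]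
      exact hne.symm)
  have e : ((r' * Real.pi ^ k : ℝ) : ℂ) - ((r * Real.pi ^ k : ℝ) : ℂ) =
      (Real.pi : ℂ) ^ k * ((r' - r : ℝ) : ℂ) := by
    push_cast
    ring
  rw [e]
  exact h1

/-- scaling the variable -/
lemma scale_eval (P : ℤ[X]) (c : ℤ) (y : ℂ) :
    aeval y (P.comp (C c * X)) = aeval ((c : ℂ) * y) P := by
  rw [aeval_comp]
  congr 1
  simp

lemma scale_ne (P : ℤ[X]) (c : ℤ) (hc : c ≠ 0) (hP : P ≠ 0) : P.comp (C c * X) ≠ 0 := by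
  intro h
  apply hP
  ext n
  have h1 := congrArg (fun Q : ℤ[X] => Q.coeff n) h
  simp only [comp_C_mul_X_coeff, coeff_zero, mul_eq_zero, pow_eq_zero_iff', ne_eq] at h1
  rw [coeff_zero]
  rcases h1 with h1 | h1
  · exact h1
  · exact absurd h1.1 hc

lemma scale_deg (P : ℤ[X]) (c : ℤ) (D : ℕ) (hD : P.natDegree ≤ D) :
    (P.comp (C c * X)).natDegree ≤ D := by
  rw [natDegree_le_iff_coeff_eq_zero] at hD ⊢
  intro n hn
  rw [comp_C_mul_X_coeff, hD n hn, zero_mul]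

lemma scale_ht (P : ℤ[X]) (c : ℤ) (D : ℕ) (hc : c ≠ 0) (hD : P.natDegree ≤ D) :
    (ht (P.comp (C c * X)) : ℝ) ≤ ((c.natAbs ^ D : ℕ) : ℝ) * ht P := by
  have h1 : ht (P.comp (C c * X)) ≤ c.natAbs ^ D * ht P := by
    unfold ht
    apply Finset.sup_le
    intro i hi
    rw [comp_C_mul_X_coeff, Int.natAbs_mul, Int.natAbs_pow, mul_comm]
    have hi' : P.coeff i ≠ 0 := by
      intro h0
      rw [mem_support_iff, comp_C_mul_X_coeff, h0, zero_mul] at hi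
      exact hi rfl
    apply Nat.mul_le_mul
    · exact Nat.pow_le_pow_right (Int.natAbs_pos.2 hc) ((le_natDegree_of_ne_zero hi').trans hD)
    · exact Finset.le_sup (f := fun i => (P.coeff i).natAbs) (mem_support_iff.2 hi')
  exact_mod_cast h1

/-- the general statement for numbers `v i = c i (z + r i π ^ k)` -/
theorem family (k : ℕ) (hk : k ≠ 0) (S : Finset ℚ) (v : ℚ → ℝ) (c : ℚ → ℤ) (r : ℚ → ℝ) (z : ℝ) (hc : ∀ i ∈ S, c i ≠ 0)
    (hr : ∀ i ∈ S, IsAlgebraic ℤ (r i)) (hinj : ∀ i ∈ S, ∀ j ∈ S, i ≠ j → r i ≠ r j)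
    (hv : ∀ i ∈ S, v i = c i * (z + r i * Real.pi ^ k)) (D : ℕ) :
    ∃ κ : ℝ, 0 < κ ∧
      (∃ C : ℝ, 0 < C ∧ ∀ i ∈ S, ∀ j ∈ S, i ≠ j → ∀ P Q : ℤ[X], P ≠ 0 → Q ≠ 0 →
        P.natDegree ≤ D → Q.natDegree ≤ D → ∀ H : ℝ, (ht P : ℝ) ≤ H → (ht Q : ℝ) ≤ H →
        C * H ^ (-κ) ≤ max ‖aeval ((v i : ℝ) : ℂ) P‖ ‖aeval ((v j : ℝ) : ℂ) Q‖) ∧
      (∀ w ρ : ℝ, 1 < ρ → ρ < w / κ → ∃ C : ℝ, ∀ Y : ℝ, 3 ≤ Y →
        {p ∈ NearF S (fun q => ((v q : ℝ) : ℂ)) D w | (ht p.2 : ℝ) ≤ Y}.Finite ∧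
        ({p ∈ NearF S (fun q => ((v q : ℝ) : ℂ)) D w | (ht p.2 : ℝ) ≤ Y}.ncard : ℝ) ≤
          Real.log (Real.log Y) / Real.log ρ + C) := by
  obtain ⟨κ₁, hκ₁, h1⟩ := fam_add S (fun q => ((r q * Real.pi ^ k : ℝ) : ℂ)) (fun i hi j hj hij =>
      measT_diff k hk (r i) (r j) (hr i hi) (hr j hj) (hinj i hi j hj hij)) Real.pi measT_pi D
  obtain ⟨C₁, hC₁, h1⟩ := h1 ‖(z : ℂ)‖
  obtain ⟨κ₂, hκ₂, h2⟩ := same_core Real.pi measT_pi D
  obtain ⟨T, hT, hTS⟩ := exists_le_ge S (fun q => ‖((v q : ℝ) : ℂ)‖)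
  obtain ⟨C₂, hC₂, h2⟩ := h2 T
  obtain ⟨κ, hκ⟩ : ∃ κ : ℝ, κ = max κ₁ κ₂ := ⟨_, rfl⟩
  have hκ0 : 0 < κ := by rw [hκ]; exact lt_max_of_lt_left hκ₁
  have hmono : ∀ (a : ℝ) (H : ℝ), 1 ≤ H → a ≤ κ → H ^ (-κ) ≤ H ^ (-a) := fun a H hH ha =>
    Real.rpow_le_rpow_of_exponent_le hH (by linarith)
  obtain ⟨B, hB, hBS⟩ := exists_le_ge S (fun q => ((((c q).natAbs) ^ D : ℕ) : ℝ))
  obtain ⟨B', hB'⟩ : ∃ B' : ℝ, B' = max B 1 := ⟨_, rfl⟩
  have hB1 : 1 ≤ B' := by rw [hB']; exact le_max_right _ _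
  have hB0 : 0 < B' := by linarith
  have hBS' : ∀ q ∈ S, ((((c q).natAbs) ^ D : ℕ) : ℝ) ≤ B' :=
    fun q hq => (hBS q hq).trans (by rw [hB']; exact le_max_left _ _)
  obtain ⟨C₃, hC₃⟩ : ∃ C₃ : ℝ, C₃ = C₁ * B' ^ (-κ₁) := ⟨_, rfl⟩
  have hC₃0 : 0 < C₃ := by rw [hC₃]; positivity
  have hpair : ∀ i ∈ S, ∀ j ∈ S, i ≠ j → ∀ P Q : ℤ[X], P ≠ 0 → Q ≠ 0 →
      P.natDegree ≤ D → Q.natDegree ≤ D → ∀ H : ℝ, (ht P : ℝ) ≤ H → (ht Q : ℝ) ≤ H →
      C₃ * H ^ (-κ) ≤ max ‖aeval ((v i : ℝ) : ℂ) P‖ ‖aeval ((v j : ℝ) : ℂ) Q‖ := by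
    intro i hi j hj hne P Q hP hQ hPD hQD H hPH hQH
    have hH1 : 1 ≤ H := (ht_pos P hP).trans hPH
    have hH0 : 0 < H := by linarith
    have hbd : ∀ (R : ℤ[X]) (m : ℚ), m ∈ S → R.natDegree ≤ D → (ht R : ℝ) ≤ H →
        (ht (R.comp (C (c m) * X)) : ℝ) ≤ B' * H := by
      intro R m hm hR hRH
      refine (scale_ht R (c m) D (hc m hm) hR).trans ?_
      exact mul_le_mul (hBS' m hm) hRH (Nat.cast_nonneg _) hB0.le
    have h3 := (h1 z le_rfl).1 i hi j hj hne (P.comp (C (c i) * X)) (Q.comp (C (c j) * X))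
      (scale_ne P _ (hc i hi) hP) (scale_ne Q _ (hc j hj) hQ) (scale_deg P _ D hPD)
      (scale_deg Q _ D hQD) (B' * H) (hbd P i hi hPD hPH) (hbd Q j hj hQD hQH)
    have e : ∀ m ∈ S, ∀ R : ℤ[X], aeval ((z : ℂ) + ((r m * Real.pi ^ k : ℝ) : ℂ)) (R.comp (C (c m) * X)) =
        aeval ((v m : ℝ) : ℂ) R := by
      intro m hm R
      rw [scale_eval, hv m hm]
      congr 1
      push_cast
      ring_nf
    rw [e i hi P, e j hj Q] at h3
    refine le_trans ?_ h3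
    rw [Real.mul_rpow hB0.le hH0.le, hC₃, mul_assoc]
    refine mul_le_mul_of_nonneg_left ?_ hC₁.le
    exact mul_le_mul_of_nonneg_left (hmono κ₁ H hH1 (by rw [hκ]; exact le_max_left _ _))
      (Real.rpow_nonneg hB0.le _)
  refine ⟨κ, hκ0, ⟨C₃, hC₃0, hpair⟩, fun w ρ hρ hρw => ?_⟩
  exact sparse_fam S (fun q => ((v q : ℝ) : ℂ)) D κ hκ0
      ⟨min C₃ C₂, lt_min hC₃0 hC₂, fun i hi j hj P hP Q hQ hne H hPH hQH => by
        have hH1 : 1 ≤ H := (ht_pos P hP.1.ne_zero).trans hPH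
        have hH0 : 0 ≤ H ^ (-κ) := by positivity
        by_cases hij : i = j
        · subst hij
          have h4 := h2 _ (hTS i hi) P hP Q hQ (fun h => hne (by rw [h])) H hPH hQH
          refine le_trans ?_ h4
          calc min C₃ C₂ * H ^ (-κ) ≤ C₂ * H ^ (-κ) :=
                mul_le_mul_of_nonneg_right (min_le_right _ _) hH0
            _ ≤ C₂ * H ^ (-κ₂) :=
                mul_le_mul_of_nonneg_left (hmono κ₂ H hH1 (by rw [hκ]; exact le_max_right _ _)) hC₂.le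
        · refine le_trans ?_ (hpair i hi j hj hij P Q hP.1.ne_zero hQ.1.ne_zero hP.2.1 hQ.2.1 H hPH hQH)
          exact mul_le_mul_of_nonneg_right (min_le_left _ _) hH0⟩ w ρ hρ hρw

/-- The seven arguments. -/
def sev : Finset ℚ := {1, 1 / 3, 2 / 3, 1 / 4, 3 / 4, 1 / 6, 5 / 6}

lemma mem_sev {x : ℚ} (hx : x ∈ sev) : x = 1 ∨ x = 1 / 3 ∨ x = 2 / 3 ∨ x = 1 / 4 ∨ x = 3 / 4 ∨
    x = 1 / 6 ∨ x = 5 / 6 := by
  unfold sev at hx
  simpa only [Finset.mem_insert, Finset.mem_singleton] using hx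

/-- the integer factor -/
def fac (k : ℕ) (x : ℚ) : ℤ :=
  if x = 1 then 2 else if x = 1 / 3 ∨ x = 2 / 3 then 3 ^ k - 1
  else if x = 1 / 4 ∨ x = 3 / 4 then 4 ^ k - 2 ^ k else (2 ^ k - 1) * (3 ^ k - 1)

lemma fac_values (k : ℕ) : fac k 1 = 2 ∧ fac k (1 / 3) = 3 ^ k - 1 ∧ fac k (2 / 3) = 3 ^ k - 1 ∧
    fac k (1 / 4) = 4 ^ k - 2 ^ k ∧ fac k (3 / 4) = 4 ^ k - 2 ^ k ∧
    fac k (1 / 6) = (2 ^ k - 1) * (3 ^ k - 1) ∧ fac k (5 / 6) = (2 ^ k - 1) * (3 ^ k - 1) := by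
  unfold fac
  norm_num

/-- coefficient of `√3 π ^ k` -/
def pa (A A' : ℚ) (x : ℚ) : ℚ :=
  if x = 1 / 3 then A else if x = 2 / 3 then -A else if x = 1 / 6 then A' else if x = 5 / 6 then -A'
  else 0

/-- coefficient of `π ^ k` -/
def pb (B : ℚ) (x : ℚ) : ℚ :=
  if x = 1 / 4 then B else if x = 3 / 4 then -B else 0

lemma pa_values (A A' : ℚ) : pa A A' 1 = 0 ∧ pa A A' (1 / 3) = A ∧ pa A A' (2 / 3) = -A ∧
    pa A A' (1 / 4) = 0 ∧ pa A A' (3 / 4) = 0 ∧ pa A A' (1 / 6) = A' ∧ pa A A' (5 / 6) = -A' := by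
  unfold pa
  norm_num

lemma pb_values (B : ℚ) : pb B 1 = 0 ∧ pb B (1 / 3) = 0 ∧ pb B (2 / 3) = 0 ∧
    pb B (1 / 4) = B ∧ pb B (3 / 4) = -B ∧ pb B (1 / 6) = 0 ∧ pb B (5 / 6) = 0 := by
  unfold pb
  norm_num

lemma irr_three : Irrational (√3 : ℝ) := by
  have := Nat.Prime.irrational_sqrt (p := 3) (by norm_num)
  push_cast at this
  exact this

lemma sqrt_lin (a b a' b' : ℚ) (h : (a : ℝ) * √3 + b = (a' : ℝ) * √3 + b') : a = a' ∧ b = b' := by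
  by_cases hab : a = a'
  · subst hab
    refine ⟨rfl, ?_⟩
    have : (b : ℝ) = b' := by linarith
    exact_mod_cast this
  · exfalso
    have h1 : (a : ℝ) - a' ≠ 0 := by
      intro h0
      apply hab
      have : (a : ℝ) = a' := by linarith
      exact_mod_cast this
    have h2 : √(3 : ℝ) = (((b' - b) / (a - a') : ℚ) : ℝ) := by
      push_cast
      rw [eq_div_iff h1]
      linarith
    exact irr_three ⟨_, h2.symm⟩

lemma sqrt_alg : IsAlgebraic ℤ (√3 : ℝ) := by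
  have h : √(3 : ℝ) ^ 2 = 3 := Real.sq_sqrt (by norm_num)
  have h2 : IsAlgebraic ℤ (√(3 : ℝ) ^ 2) := by
    rw [h]
    have := isAlgebraic_intCast (R := ℤ) (A := ℝ) 3
    push_cast at this
    exact this
  exact IsAlgebraic.of_pow (by norm_num) h2

lemma pair_inj (A A' B : ℚ) (hA : A ≠ 0) (hA' : A' ≠ 0) (hB : B ≠ 0) (h1 : A ≠ A') (h2 : A ≠ -A')
    (x y : ℚ) (hx : x ∈ sev) (hy : y ∈ sev) (hne : x ≠ y) :
    (pa A A' x : ℝ) * √3 + pb B x ≠ (pa A A' y : ℝ) * √3 + pb B y := by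
  intro h
  obtain ⟨e1, e2⟩ := sqrt_lin _ _ _ _ h
  obtain ⟨a1, a2, a3, a4, a5, a6, a7⟩ := pa_values A A'
  obtain ⟨b1, b2, b3, b4, b5, b6, b7⟩ := pb_values B
  rcases mem_sev hx with rfl | rfl | rfl | rfl | rfl | rfl | rfl <;>
  rcases mem_sev hy with rfl | rfl | rfl | rfl | rfl | rfl | rfl <;>
  first
  | exact absurd rfl hne
  | (simp only [a1, a2, a3, a4, a5, a6, a7] at e1
     simp only [b1, b2, b3, b4, b5, b6, b7] at e2
     first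
     | exact hA (by linarith)
     | exact hA' (by linarith)
     | exact hB (by linarith)
     | exact h1 (by linarith)
     | exact h2 (by linarith))

/-- the data for the seven arguments -/
theorem seven_data (m : ℕ) (hm : m ≠ 0) : ∃ A A' B : ℚ, A ≠ 0 ∧ A' ≠ 0 ∧ B ≠ 0 ∧ A ≠ A' ∧ A ≠ -A' ∧
    ∀ x ∈ sev, hz m x = (fac (2 * m + 1) x : ℝ) * (hz m 1 / 2 +
      ((pa A A' x : ℝ) * √3 + pb B x) * Real.pi ^ (2 * m + 1)) := by
  obtain ⟨σ, hσ⟩ := diff_quarter m hm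
  obtain ⟨ρ, hρ⟩ := diff_third m hm
  have hd := double_third m hm
  have s3 := sum_third m hm
  have s4 := sum_quarter m hm
  have s6 := sum_sixth m hm
  have hπ : Real.pi ^ (2 * m + 1) ≠ 0 := by positivity
  have hs3 : (√3 : ℝ) ≠ 0 := by positivity
  have hρ0 : ρ ≠ 0 := by
    rintro rfl
    have h1 := hz_ne m hm (1 / 3) (by norm_num) (by norm_num) (by norm_num)
    apply h1
    norm_num at hρ ⊢
    linarith
  have hσ0 : σ ≠ 0 := by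
    rintro rfl
    have h1 := hz_ne m hm (1 / 4) (by norm_num) (by norm_num) (by norm_num)
    apply h1
    norm_num at hσ ⊢
    linarith
  obtain ⟨k, hk⟩ : ∃ k : ℕ, k = 2 * m + 1 := ⟨_, rfl⟩
  rw [← hk] at hσ hρ hd s3 s4 s6 hπ ⊢
  have hk3 : 3 ≤ k := by omega
  have q2 : (8 : ℚ) ≤ 2 ^ k := by
    calc (8 : ℚ) = 2 ^ 3 := by norm_num
      _ ≤ 2 ^ k := pow_le_pow_right₀ (by norm_num) hk3
  have q3 : (27 : ℚ) ≤ 3 ^ k := by
    calc (27 : ℚ) = 3 ^ 3 := by norm_num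
      _ ≤ 3 ^ k := pow_le_pow_right₀ (by norm_num) hk3
  have q4 : (4 : ℚ) ^ k = 2 ^ k * 2 ^ k := by rw [← mul_pow]; norm_num
  obtain ⟨p, hp⟩ : ∃ p : ℚ, p = 2 ^ k := ⟨_, rfl⟩
  obtain ⟨t, ht⟩ : ∃ t : ℚ, t = 3 ^ k := ⟨_, rfl⟩
  have hpR : (p : ℝ) = 2 ^ k := by rw [hp]; push_cast; rfl
  have htR : (t : ℝ) = 3 ^ k := by rw [ht]; push_cast; rfl
  have h4R : (4 : ℝ) ^ k = p * p := by rw [hpR, ← mul_pow]; norm_num
  rw [← hp] at q2
  rw [← ht] at q3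
  have hp1 : p - 1 ≠ 0 := by linarith
  have ht1 : t - 1 ≠ 0 := by linarith
  have hp0 : p ≠ 0 := by linarith
  have hpp : p + 1 ≠ 0 := by linarith
  have hpR1 : (p : ℝ) - 1 ≠ 0 := by exact_mod_cast hp1
  have htR1 : (t : ℝ) - 1 ≠ 0 := by exact_mod_cast ht1
  have hpR0 : (p : ℝ) ≠ 0 := by exact_mod_cast hp0
  obtain ⟨A, hA⟩ : ∃ A : ℚ, A = ρ / (2 * (t - 1)) := ⟨_, rfl⟩
  obtain ⟨A', hA'⟩ : ∃ A' : ℚ, A' = (p + 1) * ρ / (2 * (p - 1) * (t - 1)) := ⟨_, rfl⟩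
  obtain ⟨B, hB⟩ : ∃ B : ℚ, B = σ / (2 * (p * p - p)) := ⟨_, rfl⟩
  have hA0 : A ≠ 0 := by rw [hA]; positivity
  have hAA : A' = (p + 1) / (p - 1) * A := by rw [hA, hA']; field_simp
  have hL : (p + 1) / (p - 1) > 1 := by
    rw [gt_iff_lt, lt_div_iff₀ (by linarith)]
    linarith
  obtain ⟨L, hLd⟩ : ∃ L : ℚ, L = (p + 1) / (p - 1) := ⟨_, rfl⟩
  rw [← hLd] at hL hAA
  have hpp2 : p * p - p ≠ 0 := by
    have : p * p - p = p * (p - 1) := by ring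
    rw [this]
    exact mul_ne_zero hp0 hp1
  have hppR2 : (p : ℝ) * p - p ≠ 0 := by exact_mod_cast hpp2
  refine ⟨A, A', B, hA0, ?_, ?_, ?_, ?_, ?_⟩
  · rw [hAA]
    exact mul_ne_zero (by linarith) hA0
  · rw [hB]
    exact div_ne_zero hσ0 (mul_ne_zero two_ne_zero hpp2)
  · intro h
    rw [hAA] at h
    have h1 : (L - 1) * A = 0 := by linarith
    rcases mul_eq_zero.1 h1 with h2 | h2
    · linarith
    · exact hA0 h2
  · intro h
    rw [hAA] at h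
    have h1 : (L + 1) * A = 0 := by linarith
    rcases mul_eq_zero.1 h1 with h2 | h2
    · linarith
    · exact hA0 h2
  · obtain ⟨a1, a2, a3, a4, a5, a6, a7⟩ := pa_values A A'
    obtain ⟨b1, b2, b3, b4, b5, b6, b7⟩ := pb_values B
    obtain ⟨c1, c2, c3, c4, c5, c6, c7⟩ := fac_values k
    rw [← htR] at s3 s6
    rw [h4R, ← hpR] at s4
    rw [← hpR] at s6 hd
    obtain ⟨X, hX⟩ : ∃ X : ℝ, X = Real.pi ^ k := ⟨_, rfl⟩
    obtain ⟨s, hs⟩ : ∃ s : ℝ, s = √3 := ⟨_, rfl⟩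
    obtain ⟨Z, hZ⟩ : ∃ Z : ℝ, Z = hz m 1 := ⟨_, rfl⟩
    rw [← hX, ← hs] at hρ
    rw [← hX] at hσ
    rw [← hZ] at s3 s4 s6
    rw [← hX, ← hs, ← hZ]
    have eA : (A : ℝ) = ρ / (2 * (t - 1)) := by rw [hA]; push_cast; rfl
    have eA' : (A' : ℝ) = (p + 1) * ρ / (2 * (p - 1) * (t - 1)) := by rw [hA']; push_cast; rfl
    have eB : (B : ℝ) = σ / (2 * (p * p - p)) := by rw [hB]; push_cast; rfl
    have f3 : (((3 : ℤ) ^ k - 1 : ℤ) : ℝ) = t - 1 := by push_cast; rw [htR]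
    have f4 : (((4 : ℤ) ^ k - 2 ^ k : ℤ) : ℝ) = p * p - p := by push_cast; rw [h4R, hpR]
    have f6 : ((((2 : ℤ) ^ k - 1) * (3 ^ k - 1) : ℤ) : ℝ) = (p - 1) * (t - 1) := by
      push_cast; rw [htR, hpR]
    have v3 : hz m (1 / 3) = (t - 1) * (Z / 2 + (A * s + 0) * X) := by
      rw [eA]; field_simp; linarith
    have v3' : hz m (2 / 3) = (t - 1) * (Z / 2 + (-A * s + 0) * X) := by
      rw [eA]; field_simp; linarith
    have v4 : hz m (1 / 4) = (p * p - p) * (Z / 2 + (0 * s + B) * X) := by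
      rw [eB]
      have e5 : ∀ W : ℝ, W ≠ 0 → W * (Z / 2 + (0 * s + σ / (2 * W)) * X) = (W * Z + σ * X) / 2 := by
        intro W hW
        field_simp
        ring
      rw [e5 _ hppR2]
      linarith
    have v4' : hz m (3 / 4) = (p * p - p) * (Z / 2 + (0 * s + -B) * X) := by
      have e : (p * p - p) * (Z / 2 + (0 * s + -(B : ℝ)) * X) = (p * p - p) * Z -
        (p * p - p) * (Z / 2 + (0 * s + B) * X) := by ring
      rw [e, ← v4]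
      linarith
    have v6 : hz m (1 / 6) = ((p - 1) * (t - 1)) * (Z / 2 + (A' * s + 0) * X) := by
      rw [hρ] at hd
      rw [eA']
      field_simp
      linarith
    have v6' : hz m (5 / 6) = ((p - 1) * (t - 1)) * (Z / 2 + (-A' * s + 0) * X) := by
      have e : ((p - 1) * (t - 1)) * (Z / 2 + (-(A' : ℝ) * s + 0) * X) = (p - 1) * (t - 1) * Z -
        ((p - 1) * (t - 1)) * (Z / 2 + (A' * s + 0) * X) := by ring
      rw [e, ← v6]
      linarith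
    intro x hx
    rcases mem_sev hx with rfl | rfl | rfl | rfl | rfl | rfl | rfl
    · rw [a1, b1, c1]
      push_cast
      rw [← hZ]
      ring
    · rw [a2, b2, c2, f3]
      push_cast
      exact v3
    · rw [a3, b3, c3, f3]
      push_cast
      exact v3'
    · rw [a4, b4, c4, f4]
      push_cast
      exact v4
    · rw [a5, b5, c5, f4]
      push_cast
      exact v4'
    · rw [a6, b6, c6, f6]
      push_cast
      exact v6
    · rw [a7, b7, c7, f6]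
      push_cast
      exact v6'

end Pool.Agent.X142.HK
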