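import Mathlib
import Pool.Agent.X142.HZ.Basic

/-!
# Hurwitz zeta values at odd `k = 2 m + 1`: the difference `ζ(k, x) - ζ(k, 1 - x)` for rational `x`
-/

set_option autoImplicit false

namespace Pool.Agent.X142.HK

open Finset Real

open Pool.Agent.X142.HZ (sum_cos sum_sin_sin dvd_iff')

/-- `ζ(2 m + 1, x)` -/
noncomputable def hz (m : ℕ) (x : ℝ) : ℝ := ∑' n : ℕ, 1 / ((n : ℝ) + x) ^ (2 * m + 1)

lemma summable_hz (m : ℕ) (hm : m ≠ 0) (x : ℝ) (hx : 0 < x) :
    Summable fun n : ℕ => 1 / ((n : ℝ) + x) ^ (2 * m + 1) := by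
  have h := (Real.summable_one_div_nat_pow (p := 2 * m + 1)).2 (by omega)
  rw [← summable_nat_add_iff 1]
  have h2 := (summable_nat_add_iff 1).2 h
  refine Summable.of_nonneg_of_le (fun n => by positivity) (fun n => ?_) h2
  have h3 : (0 : ℝ) < ((n + 1 : ℕ) : ℝ) := by exact_mod_cast Nat.succ_pos n
  apply one_div_le_one_div_of_le (by positivity)
  exact pow_le_pow_left₀ h3.le (by linarith) _

/-- the Bernoulli polynomial of degree `2 m + 1` -/
noncomputable def Bp (m : ℕ) (x : ℝ) : ℝ :=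
  (Polynomial.map (algebraMap ℚ ℝ) (Polynomial.bernoulli (2 * m + 1))).eval x

/-- the rational constant -/
noncomputable def cst (m : ℕ) : ℚ := (-1) ^ (m + 1) * 2 ^ (2 * m) / ((2 * m + 1).factorial : ℚ)

lemma hasSum_sin (m : ℕ) (hm : m ≠ 0) (x : ℝ) (hx : x ∈ Set.Icc (0 : ℝ) 1) :
    HasSum (fun n : ℕ => 1 / (n : ℝ) ^ (2 * m + 1) * sin (2 * π * n * x))
      ((cst m : ℝ) * π ^ (2 * m + 1) * Bp m x) := by
  have h := hasSum_one_div_nat_pow_mul_sin hm hx
  have e : (cst m : ℝ) * π ^ (2 * m + 1) * Bp m x =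
      (-1 : ℝ) ^ (m + 1) * (2 * π) ^ (2 * m + 1) / 2 / ((2 * m + 1).factorial : ℝ) *
        (Polynomial.map (algebraMap ℚ ℝ) (Polynomial.bernoulli (2 * m + 1))).eval x := by
    unfold cst Bp
    push_cast
    rw [mul_pow, pow_succ (2 : ℝ) (2 * m)]
    ring
  rw [e]
  exact h

lemma tsum_class (m : ℕ) (hm : m ≠ 0) (q a : ℕ) (ha0 : 0 < a) (haq : a < q) (c : ℝ) :
    (Summable fun n : ℕ => 1 / (n : ℝ) ^ (2 * m + 1) * (if (q : ℤ) ∣ (n : ℤ) - a then c else 0)) ∧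
    ∑' n : ℕ, 1 / (n : ℝ) ^ (2 * m + 1) * (if (q : ℤ) ∣ (n : ℤ) - a then c else 0)
      = c / (q : ℝ) ^ (2 * m + 1) * hz m (a / q) := by
  have hqR : (0 : ℝ) < q := by exact_mod_cast (ha0.trans haq)
  obtain ⟨f, hf⟩ : ∃ f : ℕ → ℝ, f = fun n : ℕ => 1 / (n : ℝ) ^ (2 * m + 1) *
    (if (q : ℤ) ∣ (n : ℤ) - a then c else 0) := ⟨_, rfl⟩
  have hinj : Function.Injective fun j : ℕ => a + q * j := by
    intro j j' h
    have h1 : q * j = q * j' := by
      have : a + q * j = a + q * j' := h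
      omega
    exact Nat.eq_of_mul_eq_mul_left (ha0.trans haq) h1
  have hsupp : Function.support f ⊆ Set.range fun j : ℕ => a + q * j := by
    intro n hn
    rw [Function.mem_support, hf] at hn
    have h1 : (q : ℤ) ∣ (n : ℤ) - a := by
      by_contra h
      simp only [if_neg h, mul_zero, ne_eq, not_true_eq_false] at hn
    obtain ⟨k, hk⟩ := h1
    have hk0 : 0 ≤ k := by
      by_contra hneg
      have h2 : k ≤ -1 := by omega
      have h3 : (q : ℤ) * k ≤ (q : ℤ) * (-1) :=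
        mul_le_mul_of_nonneg_left h2 (Int.natCast_nonneg q)
      have h4 : (a : ℤ) < q := by exact_mod_cast haq
      have h5 : (0 : ℤ) ≤ n := Int.natCast_nonneg n
      omega
    refine ⟨k.toNat, ?_⟩
    have h6 : ((k.toNat : ℕ) : ℤ) = k := Int.toNat_of_nonneg hk0
    have h7 : ((a + q * k.toNat : ℕ) : ℤ) = n := by
      push_cast
      rw [h6]
      omega
    exact_mod_cast h7
  have hval : ∀ j : ℕ, f (a + q * j) = c / (q : ℝ) ^ (2 * m + 1) * (1 / ((j : ℝ) + a / q) ^ (2 * m + 1)) := by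
    intro j
    rw [hf]
    have h1 : (q : ℤ) ∣ ((a + q * j : ℕ) : ℤ) - a := ⟨j, by push_cast; ring⟩
    simp only [if_pos h1]
    have h2 : ((a + q * j : ℕ) : ℝ) = q * ((j : ℝ) + a / q) := by
      push_cast
      field_simp
      ring
    rw [h2, mul_pow]
    have h3 : (0 : ℝ) < (j : ℝ) + a / q := by
      have : (0 : ℝ) < a := by exact_mod_cast ha0
      positivity
    field_simp
  have hs : Summable (f ∘ fun j : ℕ => a + q * j) := by
    have h1 := (summable_hz m hm ((a : ℝ) / q) (by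
      have : (0 : ℝ) < a := by exact_mod_cast ha0
      positivity)).mul_left (c / (q : ℝ) ^ (2 * m + 1))
    exact h1.congr fun j => by rw [Function.comp, hval]
  constructor
  · have h1 : Summable f := (hinj.summable_iff fun x hx => by
      by_contra h
      exact hx (hsupp h)).1 hs
    rw [hf] at h1
    exact h1
  · have h1 : ∑' j : ℕ, f (a + q * j) = ∑' n, f n := hinj.tsum_eq hsupp
    rw [hf] at h1
    rw [← h1]
    have h2 : ∀ j : ℕ, (fun n : ℕ => 1 / (n : ℝ) ^ (2 * m + 1) * (if (q : ℤ) ∣ (n : ℤ) - a then c else 0))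
      (a + q * j) = c / (q : ℝ) ^ (2 * m + 1) * (1 / ((j : ℝ) + a / q) ^ (2 * m + 1)) := by
      intro j
      have := hval j
      rw [hf] at this
      exact this
    rw [tsum_congr h2, tsum_mul_left]
    rfl

/-- the coefficient of `π ^ k` in `ζ(k, a / q) - ζ(k, 1 - a / q)` -/
noncomputable def cf (m a q : ℕ) : ℝ :=
  2 * (q : ℝ) ^ (2 * m) * cst m * ∑ b ∈ range q, sin (2 * π * b * a / q) * Bp m (b / q)

theorem hz_sub (m : ℕ) (hm : m ≠ 0) (q a : ℕ) (ha0 : 0 < a) (haq : a < q) :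
    hz m (a / q) - hz m (1 - a / q) = cf m a q * π ^ (2 * m + 1) := by
  have hq0 : 0 < q := ha0.trans haq
  have hqR : (0 : ℝ) < q := by exact_mod_cast hq0
  have h1 : HasSum (fun n : ℕ => ∑ b ∈ range q, sin (2 * π * b * a / q) *
      (1 / (n : ℝ) ^ (2 * m + 1) * sin (2 * π * n * ((b : ℝ) / q))))
      (∑ b ∈ range q, sin (2 * π * b * a / q) * ((cst m : ℝ) * π ^ (2 * m + 1) * Bp m (b / q))) := by
    apply hasSum_sum
    intro b hb
    apply HasSum.mul_left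
    apply hasSum_sin m hm
    rw [mem_range] at hb
    constructor
    · positivity
    · rw [div_le_one hqR]
      exact_mod_cast hb.le
  obtain ⟨s1, t1⟩ := tsum_class m hm q a ha0 haq ((q : ℝ) / 2)
  obtain ⟨s2, t2⟩ := tsum_class m hm q (q - a) (by omega) (by omega) ((q : ℝ) / 2)
  have h2 : ∀ n : ℕ, ∑ b ∈ range q, sin (2 * π * b * a / q) *
      (1 / (n : ℝ) ^ (2 * m + 1) * sin (2 * π * n * ((b : ℝ) / q))) =
      1 / (n : ℝ) ^ (2 * m + 1) * (if (q : ℤ) ∣ (n : ℤ) - a then (q : ℝ) / 2 else 0) -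
      1 / (n : ℝ) ^ (2 * m + 1) * (if (q : ℤ) ∣ (n : ℤ) - ((q - a : ℕ) : ℤ) then (q : ℝ) / 2 else 0) := by
    intro n
    have h3 := sum_sin_sin q hq0 a n
    have h4 : ∑ b ∈ range q, sin (2 * π * b * a / q) *
      (1 / (n : ℝ) ^ (2 * m + 1) * sin (2 * π * n * ((b : ℝ) / q))) = 1 / (n : ℝ) ^ (2 * m + 1) *
      ∑ b ∈ range q, sin (2 * π * b * ((a : ℤ) : ℝ) / q) * sin (2 * π * b * ((n : ℤ) : ℝ) / q) := by
      rw [mul_sum]
      apply sum_congr rfl
      intro b _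
      rw [Int.cast_natCast, Int.cast_natCast]
      have e : 2 * π * n * ((b : ℝ) / q) = 2 * π * b * n / q := by ring
      rw [e]
      ring
    rw [h4, h3, mul_sub]
    congr 2
    exact if_congr (dvd_iff' q a haq n) rfl rfl
  have h5 := h1.tsum_eq
  rw [tsum_congr h2, s1.tsum_sub s2, t1, t2] at h5
  have e1 : ((q - a : ℕ) : ℝ) / q = 1 - a / q := by
    rw [Nat.cast_sub haq.le]
    field_simp
  rw [e1] at h5
  obtain ⟨S₀, hS⟩ : ∃ S₀ : ℝ, S₀ = ∑ b ∈ range q, sin (2 * π * b * a / q) * Bp m (b / q) := ⟨_, rfl⟩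
  obtain ⟨d, hd⟩ : ∃ d : ℝ, d = hz m (a / q) - hz m (1 - a / q) := ⟨_, rfl⟩
  have e2 : (q : ℝ) / 2 / (q : ℝ) ^ (2 * m + 1) * d = (cst m : ℝ) * π ^ (2 * m + 1) * S₀ := by
    rw [hd, mul_sub, h5, hS, mul_sum]
    apply sum_congr rfl
    intro b _
    ring
  unfold cf
  rw [← hS, ← hd]
  have e3 : d = 2 * (q : ℝ) ^ (2 * m) * ((q : ℝ) / 2 / (q : ℝ) ^ (2 * m + 1) * d) := by
    rw [pow_succ (q : ℝ) (2 * m)]
    field_simp
  rw [e3, e2]
  ring

end Pool.Agent.X142.HK
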